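import Mathlib
import Pool.Agent.H43.IndepSets

set_option autoImplicit false

namespace Pool.Agent.Results.MP_a2dcfe_co.DisjointIndependentSets

open Finset

/-- `G` contains `k` disjoint independent `p`-sets: there are `k` pairwise disjoint sets of
`p` vertices each, every one of them independent in `G`. -/
def ContainsIndepSets {V : Type*} (G : SimpleGraph V) (k p : ℕ) : Prop :=
  ∃ W : Fin k → Finset V,
    (∀ i, (W i).card = p ∧ G.IsIndepSet (W i : Set V)) ∧ ∀ i j, i ≠ j → Disjoint (W i) (W j)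

/-- The disjoint union of `t` copies of `K_m` and `r` isolated vertices. -/
def cliquesAndIsolated (t m r : ℕ) : SimpleGraph ((Fin t × Fin m) ⊕ Fin r) where
  Adj x y := ∃ (i : Fin t) (a b : Fin m), a ≠ b ∧ x = Sum.inl (i, a) ∧ y = Sum.inl (i, b)
  symm := by
    constructor
    rintro x y ⟨i, a, b, hab, rfl, rfl⟩
    exact ⟨i, b, a, hab.symm, rfl, rfl⟩
  loopless := by
    constructor
    rintro x ⟨i, a, b, hab, h1, h2⟩
    rw [h1] at h2
    simp only [Sum.inl.injEq, Prod.mk.injEq, true_and] at h2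
    exact hab h2

/-- Build the isomorphism from a description of the graph by disjoint clique blocks. -/
theorem exists_iso {V : Type*} [Fintype V] [DecidableEq V] (G : SimpleGraph V) (T : Finset V)
    (B : V → Finset V) (m : ℕ) (hB : ∀ z ∈ T, (B z).card = m)
    (hdis : ∀ z ∈ T, ∀ z' ∈ T, z ≠ z' → Disjoint (B z) (B z'))
    (hadj : ∀ v w, G.Adj v w ↔ v ≠ w ∧ ∃ z ∈ T, v ∈ B z ∧ w ∈ B z) :
    Nonempty (G ≃g cliquesAndIsolated T.card m (Fintype.card V - m * T.card)) := by
  classical
  let eT : Fin T.card ≃ T := T.equivFin.symm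
  have eB : ∀ z : T, Nonempty (Fin m ≃ B z) := fun z =>
    ⟨(Finset.equivFinOfCardEq (hB z z.2)).symm⟩
  let eB' : ∀ z : T, Fin m ≃ B z := fun z => (eB z).some
  let R : Finset V := univ \ T.biUnion B
  have hcU : (T.biUnion B).card = m * T.card := by
    rw [card_biUnion (fun z hz z' hz' hne => hdis z hz z' hz' hne), sum_congr rfl hB,
      sum_const, smul_eq_mul, mul_comm]
  have hcR : R.card = Fintype.card V - m * T.card := by
    rw [card_sdiff_of_subset (subset_univ _), hcU, card_univ]
  have hle : m * T.card ≤ Fintype.card V := by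
    rw [← hcU]; exact card_le_univ _
  let eR : Fin (Fintype.card V - m * T.card) ≃ R := (Finset.equivFinOfCardEq hcR).symm
  let f : ((Fin T.card × Fin m) ⊕ Fin (Fintype.card V - m * T.card)) → V :=
    Sum.elim (fun q => ((eB' (eT q.1) q.2 : B (eT q.1)) : V)) (fun j => (eR j : V))
  have hf1 : ∀ q : Fin T.card × Fin m, f (Sum.inl q) ∈ B (eT q.1) := fun q =>
    (eB' (eT q.1) q.2).2
  have hf2 : ∀ j, f (Sum.inr j) ∉ T.biUnion B := fun j => (mem_sdiff.1 (eR j).2).2
  have hinj : Function.Injective f := by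
    rintro (⟨i, a⟩ | j) (⟨i', a'⟩ | j') h
    · by_cases hi : i = i'
      · subst hi
        have : (eB' (eT i) a : V) = (eB' (eT i) a' : V) := h
        have := (eB' (eT i)).injective (Subtype.ext this)
        rw [this]
      · exfalso
        have h1 := hf1 (i, a)
        have h2 := hf1 (i', a')
        rw [h] at h1
        have hne : (eT i : V) ≠ (eT i' : V) := fun h' => hi (eT.injective (Subtype.ext h'))
        exact (disjoint_left.1 (hdis _ (eT i).2 _ (eT i').2 hne)) h1 h2
    · exfalso
      have h1 := hf1 (i, a)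
      rw [h] at h1
      exact hf2 j' (mem_biUnion.2 ⟨_, (eT i).2, h1⟩)
    · exfalso
      have h1 := hf1 (i', a')
      rw [← h] at h1
      exact hf2 j (mem_biUnion.2 ⟨_, (eT i').2, h1⟩)
    · have : (eR j : V) = (eR j' : V) := h
      rw [eR.injective (Subtype.ext this)]
  have hbij : Function.Bijective f := by
    rw [Fintype.bijective_iff_injective_and_card]
    refine ⟨hinj, ?_⟩
    rw [Fintype.card_sum, Fintype.card_prod, Fintype.card_fin, Fintype.card_fin, Fintype.card_fin,
      mul_comm T.card m]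
    omega
  refine ⟨(RelIso.symm ⟨Equiv.ofBijective f hbij, ?_⟩ : G ≃g _)⟩
  intro x y
  simp only [Equiv.ofBijective_apply]
  rw [hadj]
  constructor
  · rintro ⟨hne, z, hz, hx, hy⟩
    rcases x with ⟨i, a⟩ | j
    · rcases y with ⟨i', a'⟩ | j'
      · have e1 : (eT i : V) = z := by
          by_contra h
          exact (disjoint_left.1 (hdis _ (eT i).2 _ hz h)) (hf1 (i, a)) hx
        have e2 : (eT i' : V) = z := by
          by_contra h
          exact (disjoint_left.1 (hdis _ (eT i').2 _ hz h)) (hf1 (i', a')) hy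
        have e3 : i = i' := eT.injective (Subtype.ext (e1.trans e2.symm))
        subst e3
        refine ⟨i, a, a', ?_, rfl, rfl⟩
        intro h
        exact hne (by rw [h])
      · exact absurd (mem_biUnion.2 ⟨z, hz, hy⟩) (hf2 j')
    · exact absurd (mem_biUnion.2 ⟨z, hz, hx⟩) (hf2 j)
  · rintro ⟨i, a, b, hab, rfl, rfl⟩
    refine ⟨?_, eT i, (eT i).2, hf1 (i, a), hf1 (i, b)⟩
    intro h
    have := hinj h
    simp only [Sum.inl.injEq, Prod.mk.injEq, true_and] at this
    exact hab this

/-- **Q1 holds.** For `p ≥ 3`, `k ≥ 2`, `1 ≤ s ≤ (k-1)p - 1`, every graph on `kp - 1 + s` vertices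
with at most `(2k-1)s` edges and maximum degree at most `2k-2` contains `k` disjoint independent
`p`-sets, unless `(k-1) ∣ s`, it has exactly `(2k-1)s` edges, and it is the disjoint union of
`s/(k-1)` copies of `K_{2k-1}` and isolated vertices. -/
theorem result (p k s : ℕ) (hp : 3 ≤ p) (hk : 2 ≤ k) (hs : 1 ≤ s) (hs' : s ≤ (k - 1) * p - 1)
    (G : SimpleGraph (Fin (k * p - 1 + s)))
    (hE : G.edgeSet.ncard ≤ (2 * k - 1) * s)
    (hD : ∀ v, (G.neighborSet v).ncard ≤ 2 * k - 2) :
    ContainsIndepSets G k p ∨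
    ((k - 1) ∣ s ∧ G.edgeSet.ncard = (2 * k - 1) * s ∧
      Nonempty (G ≃g cliquesAndIsolated (s / (k - 1)) (2 * k - 1)
        (k * p - 1 + s - (2 * k - 1) * (s / (k - 1))))) := by
  classical
  obtain ⟨j, rfl⟩ : ∃ j, k = j + 2 := ⟨k - 2, by omega⟩
  have hkp : 1 ≤ (j + 2) * p := Nat.mul_pos (by omega) (by omega)
  have hU : (univ : Finset (Fin ((j + 2) * p - 1 + s))).card + 1 = (j + 2) * p + s := by
    rw [card_univ, Fintype.card_fin]; omega
  have hdg : ∀ v, Pool.Agent.H43.IndepSets.dg G univ v = (G.neighborSet v).ncard := by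
    intro v
    unfold Pool.Agent.H43.IndepSets.dg
    rw [Set.ncard_eq_toFinset_card']
    congr 1
    ext w
    simp
  have hdg' : ∀ v, Pool.Agent.H43.IndepSets.dg G univ v = G.degree v := by
    intro v
    unfold Pool.Agent.H43.IndepSets.dg
    rw [← G.card_neighborFinset_eq_degree]
    congr 1
    ext w
    simp
  have hE2 : Pool.Agent.H43.IndepSets.E2 G univ = 2 * G.edgeSet.ncard := by
    unfold Pool.Agent.H43.IndepSets.E2
    rw [Finset.sum_congr rfl (fun v _ => hdg' v), G.sum_degrees_eq_twice_card_edges,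
      Set.ncard_eq_toFinset_card']
    rfl
  by_cases hpack : Pool.Agent.H43.IndepSets.Pack G p (j + 2) univ
  · left
    obtain ⟨W, hW, hdis⟩ := hpack.exists_family
    refine ⟨W, fun i => ⟨(hW i).2.1, ?_⟩, hdis⟩
    intro x hx y hy _
    exact (hW i).2.2 x (mem_coe.1 hx) y (mem_coe.1 hy)
  · right
    have hEE : Pool.Agent.H43.IndepSets.E2 G univ ≤ 2 * (2 * j + 3) * s := by
      rw [hE2]
      have : 2 * (j + 2) - 1 = 2 * j + 3 := by omega
      rw [this] at hE
      calc 2 * G.edgeSet.ncard ≤ 2 * ((2 * j + 3) * s) := Nat.mul_le_mul_left _ hE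
        _ = 2 * (2 * j + 3) * s := by ring
    obtain ⟨h1, T, _, hTc, hTB, hTd, hTadj⟩ := Pool.Agent.H43.IndepSets.extremal (G := G)
      (p := p) (k := j) (s := s) (by omega) hU
      (fun v _ => by rw [hdg v]; have := hD v; omega) hEE hpack
    have e1 : j + 2 - 1 = j + 1 := by omega
    have e2 : 2 * (j + 2) - 1 = 2 * j + 3 := by omega
    have e3 : s / (j + 1) = T.card := Nat.div_eq_of_eq_mul_left (by omega) hTc.symm
    rw [e1, e2, e3]
    refine ⟨⟨T.card, hTc.symm.trans (mul_comm _ _)⟩, ?_, ?_⟩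
    · rw [hE2] at h1
      have : 2 * (2 * j + 3) * s = 2 * ((2 * j + 3) * s) := by ring
      omega
    · have := exists_iso G T (Pool.Agent.H43.IndepSets.cn G univ) (2 * j + 3) hTB hTd
        (fun v w => hTadj v (mem_univ _) w (mem_univ _))
      rw [Fintype.card_fin] at this
      exact this

end Pool.Agent.Results.MP_a2dcfe_co.DisjointIndependentSets
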